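import Pool.Agent.N554.HKS.Def

/-! # HK/IMG: images of infinite words under non-erasing morphisms (helper935) -/

set_option autoImplicit false

namespace Pool.Agent.N935.HKS

open Pool.Agent.N554.HKS

theorem seg_succ {A : Type} (w : ℕ → A) (n : ℕ) : seg w 0 (n + 1) = seg w 0 n ++ [w n] := by
  unfold seg
  rw [List.range_succ, List.map_append]
  simp

theorem ext_append {A B : Type} (f : A → List B) (l l' : List A) :
    ext f (l ++ l') = ext f l ++ ext f l' := by
  unfold ext
  exact List.flatMap_append

theorem pre {A B : Type} (f : A → List B) (w : ℕ → A) {n N : ℕ} (h : n ≤ N) :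
    ext f (seg w 0 n) <+: ext f (seg w 0 N) := by
  induction h with
  | refl => exact List.prefix_rfl
  | step _ ih =>
    rw [Nat.succ_eq_add_one, seg_succ, ext_append]
    exact ih.trans (List.prefix_append _ _)

theorem len {A B : Type} (f : A → List B) (hf : ∀ a, f a ≠ []) (w : ℕ → A) (n : ℕ) :
    n ≤ (ext f (seg w 0 n)).length := by
  induction n with
  | zero => exact Nat.zero_le _
  | succ n ih =>
    rw [seg_succ, ext_append, List.length_append]
    have h1 : 1 ≤ (ext f [w n]).length := by
      have h2 : ext f [w n] = f (w n) := by simp [ext]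
      rw [h2]
      exact List.length_pos_of_ne_nil (hf _)
    omega

theorem IMG_proof : IMG := by
  intro A B _ f hf w N
  apply List.ext_getElem
  · simp [seg]
  · intro j h1 h2
    have h3 : (seg (img f w) 0 (ext f (seg w 0 N)).length)[j] = img f w j := by simp [seg]
    rw [h3]
    unfold img
    have h4 : j < (ext f (seg w 0 (j + 1))).length :=
      (Nat.lt_succ_self j).trans_le (len f hf w (j + 1))
    rw [List.getD_eq_getElem _ _ h4]
    rcases le_total (j + 1) N with h | h
    · exact (pre f w h).getElem h4
    · exact ((pre f w h).getElem h2).symm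

end Pool.Agent.N935.HKS
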